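import Pool.Agent.Lib.MP_ff62c8_lc.Own

/-!
A nonsmooth aperiodic countable Borel equivalence relation without compact action realization,
given explicitly: the orbit relation of four homeomorphisms of the compact space `𝕋 × 𝕋²`, on the
invariant set `B × 𝕋²`, for every dense `G_δ` set `B` inside a suitable dense `G_δ` subset of the
circle `𝕋`.
-/

set_option autoImplicit false

universe u v

namespace Pool.Agent.Results.MP_ff62c8_lc.GenericParameters

open Pool.Agent.Lib.MP_ff62c8_lc.Own

/-- There is a dense `G_δ` set `A` of parameters such that for every dense `G_δ` set `B ⊆ A` the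
orbit relation on `B × 𝕋²` is a nonsmooth aperiodic countable Borel equivalence relation without
compact action realization. -/
theorem result :
    ∃ A : Set UnitAddCircle, IsGδ A ∧ Dense A ∧
      ∀ B : Set UnitAddCircle, B ⊆ A → IsGδ B → Dense B →
        StandardBorelSpace (Phase B) ∧ IsCBER (Orbit B) ∧ IsAperiodic (Orbit B) ∧
          ¬ IsSmooth.{u} (Orbit B) ∧ ¬ HasCompactActionRealization.{u, v} (Orbit B) :=
  main

end Pool.Agent.Results.MP_ff62c8_lc.GenericParameters
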